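import Pool.Agent.K9h80.EP.Bx5

/-!
# Weighted level of distribution for the residues `κ v_1(n_1) ⋯ v_r(n_r) + f_1(n) + ⋯ + f_r(n)` with arbitrary functions `f_i`

Here `n_i` runs over a set `M_i` on which the values of `v_i` have nearly minimal additive energy of some order (such sets
may be as thin as one likes: powers, values of polynomials, ...), and `f_i(n_1, …, n_r)` is an ARBITRARY integer valued
function which does not depend on `n_i`; for `r = 2` the residues are `κ v_1(n) v_2(m) + f(n) + g(m)` with arbitrary `f` and `g`.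

Method: a box inequality (repeated use of Hölder's inequality with the exponents `2 p`, `Pool.Agent.K9h80.EP.box`) removes
the functions `f_i` and bounds a power of the exponential sum over the residues by an exponential sum over the products of
`r` differences; the energies bound the number of representations of these products, and the divisor function does the rest:
the residues have nearly minimal additive energy (`Pool.Agent.K9h80.EP.ml_good`). The passage from the energy to the level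
of distribution is the starting file `Pool.Agent.TH212.EH`.

From Mathlib: `ArithmeticFunction.vonMangoldt`: the function `Λ`; `Nat.totient`: Euler's function.
-/

set_option autoImplicit false

namespace Pool.Agent.Results.MP_188a10_nt.MultilinearResidues

open Finset

/-- `E(x; d, a) = ψ(x; d, a) - x / φ(d)`, where `ψ(x; d, a)` is the sum of `Λ(n)` over the `n ≤ x` with
`n ≡ a (mod d)`. -/
noncomputable def E (x d : ℕ) (a : ℤ) : ℝ :=
  ∑ n ∈ (Icc 1 x).filter (fun n : ℕ => (n : ℤ) ≡ a [ZMOD d]), ArithmeticFunction.vonMangoldt n - (x : ℝ) / Nat.totient d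

/-- `τ(d)`: the number of the divisors of `d`. In particular `τ(d) ^ 2 ≥ 3 ^ ν(d)`, where `ν(d)` is the number of
the prime factors of `d`. -/
noncomputable def τ (d : ℕ) : ℝ := d.divisors.card

/-- `N / exp (K (log log N) ^ 2)` -/
noncomputable def level (K N : ℕ) : ℝ := N / Real.exp (K * Real.log (Real.log N) ^ 2)

/-- The additive energy of order `p` of the values of `v` on `M`: the number of the solutions of
`v(x_1) + ⋯ + v(x_p) = v(y_1) + ⋯ + v(y_p)` with all `x_i`, `y_i` in `M`. -/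
def energy (p : ℕ) (M : Finset ℤ) (v : ℤ → ℤ) : ℕ :=
  (((Fintype.piFinset fun _ : Fin p => M) ×ˢ (Fintype.piFinset fun _ : Fin p => M)).filter
    fun q : (Fin p → ℤ) × (Fin p → ℤ) => ∑ i, v (q.1 i) = ∑ i, v (q.2 i)).card

/-- The values of `v` on `M` are at most `L` in absolute value, and their energy of order `p` is at most `log ^ C N` times
`|M| ^ (2 p) / L`. (It is always at least `|M| ^ (2 p) / (2 p L + 1)`.) -/
def Thin (N C p L : ℕ) (M : Finset ℤ) (v : ℤ → ℤ) : Prop :=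
  (∀ m ∈ M, |v m| ≤ L) ∧ (energy p M v : ℝ) * L ≤ Real.log N ^ C * (M.card : ℝ) ^ (2 * p)

/-- the residue `a(n) = κ v_1(n_1) ⋯ v_r(n_r) + f_1(n) + ⋯ + f_r(n)` -/
def res {r : ℕ} (κ : ℤ) (v : Fin r → ℤ → ℤ) (f : Fin r → (Fin r → ℤ) → ℤ) (n : Fin r → ℤ) : ℤ :=
  κ * ∏ i, v i (n i) + ∑ i, f i n

/-- The sum of `w(n) E(x; d, a(n))` over the `n ∈ M_1 × ⋯ × M_r` for which `a(n)` is positive and coprime to `d`. -/
noncomputable def total {r : ℕ} (M : Fin r → Finset ℤ) (a : (Fin r → ℤ) → ℤ) (w : (Fin r → ℤ) → ℝ) (x d : ℕ) : ℝ :=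
  ∑ n ∈ (Fintype.piFinset M).filter (fun n => 0 < a n ∧ Int.gcd (a n) d = 1), w n * E x d (a n)

/-- The estimate for the residues `a(n)`, `n ∈ M_1 × ⋯ × M_r`: for arbitrary coefficients `|w(n)| ≤ log ^ T N` and arbitrary
`x(d) ≤ B N`, the sum over ALL `d ≤ N / exp (K (log log N) ^ 2)` of `τ(d) ^ T` times the ABSOLUTE VALUE of the sum of
`w(n) E(x(d); d, a(n))`, over the `n` for which `a(n)` is positive and coprime to `d`, is at most
`|M_1| ⋯ |M_r| N / log ^ U N`. -/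
def Level {r : ℕ} (N K B T U : ℕ) (M : Fin r → Finset ℤ) (a : (Fin r → ℤ) → ℤ) : Prop :=
  ∀ w : (Fin r → ℤ) → ℝ, (∀ n, |w n| ≤ Real.log N ^ T) → ∀ x : ℕ → ℕ, (∀ d, x d ≤ B * N) →
    ∑ d ∈ Icc 1 ⌊level K N⌋₊, τ d ^ T * |total M a w (x d) d| ≤ (∏ i, (M i).card : ℕ) * N / Real.log N ^ U

lemma gcd_iff (a : ℤ) (ha : 0 < a) (q : ℕ) : Int.gcd a q = 1 ↔ a.toNat.Coprime q := by
  obtain ⟨b, rfl⟩ := Int.eq_ofNat_of_zero_le ha.le
  rw [Int.gcd_natCast_natCast, Int.toNat_natCast, Nat.coprime_iff_gcd_eq_one]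

lemma E_eq (x q : ℕ) (a : ℤ) (ha : 0 < a) : E x q a =
    Pool.Agent.W93.LV.Fu (fun n => ArithmeticFunction.vonMangoldt n) x q a.toNat - (x : ℝ) / Nat.totient q := by
  obtain ⟨b, rfl⟩ := Int.eq_ofNat_of_zero_le ha.le
  unfold E Pool.Agent.W93.LV.Fu
  rw [Int.toNat_natCast]
  congr 1
  apply sum_congr _ (fun _ _ => rfl)
  ext n
  simp only [mem_filter, Int.natCast_modEq_iff]

/-- the energy over a set and the energy of a family -/
lemma energy_coe (p : ℕ) (M : Finset ℤ) (v : ℤ → ℤ) :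
    Pool.Agent.K9h80.EP.E p (fun a : {a // a ∈ M} => v (a : ℤ)) ≤ energy p M v := by
  classical
  unfold Pool.Agent.K9h80.EP.E energy
  apply card_le_card_of_injOn (fun q => (fun j => ((q.1 j : {a // a ∈ M}) : ℤ), fun j => ((q.2 j : {a // a ∈ M}) : ℤ)))
  · intro q hq
    rw [mem_coe, mem_filter] at hq ⊢
    rw [mem_product, Fintype.mem_piFinset, Fintype.mem_piFinset]
    exact ⟨⟨fun j => (q.1 j).2, fun j => (q.2 j).2⟩, sub_eq_zero.1 hq.2⟩
  · intro q _ q' _ h
    simp only [Prod.mk.injEq] at h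
    apply Prod.ext
    · funext j
      exact Subtype.ext (congrFun h.1 j)
    · funext j
      exact Subtype.ext (congrFun h.2 j)

lemma En_le {ι : Type} [Fintype ι] (p : ℕ) (v : ι → ℤ) : Pool.Agent.TH212.EH.En p v ≤ Pool.Agent.K9h80.EP.E p v := by
  classical
  unfold Pool.Agent.TH212.EH.En Pool.Agent.K9h80.EP.E
  rw [Nat.card_eq_fintype_card, Fintype.card_subtype]
  apply card_le_card
  intro q hq
  rw [mem_filter] at hq ⊢
  exact ⟨hq.1, sub_eq_zero.2 hq.2⟩

/-- the theorem for families -/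
lemma core (r p B C T U : ℕ) (hp : 1 ≤ p) (ε : ℝ) (hε : 0 < ε) : ∃ K N₀ : ℕ, ∀ N : ℕ, N₀ ≤ N →
    ∀ (L : Fin (r + 1) → ℕ) (M : Fin (r + 1) → Finset ℤ) (v : Fin (r + 1) → ℤ → ℤ), (∀ i, (N : ℝ) ^ ε ≤ L i) →
      ∏ i, L i ≤ B * N → (N : ℝ) ≤ Real.log N ^ C * (∏ i, L i : ℕ) →
      (∀ i, Pool.Agent.K9h80.EP.Good N C p (fun a : {a // a ∈ M i} => v i (a : ℤ)) (L i)) →
    ∀ (κ : ℤ) (f : Fin (r + 1) → (Fin (r + 1) → ℤ) → ℤ), κ ≠ 0 → (∀ i n m, f i (Function.update n i m) = f i n) →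
      (∀ n ∈ Fintype.piFinset M, |res κ v f n| ≤ B * N) → Level N K B T U M (res κ v f) := by
  classical
  obtain ⟨P, C', n1, h1⟩ := Pool.Agent.K9h80.EP.ml_good B ε hε p C hp r
  obtain ⟨K, n2, h2⟩ := Pool.Agent.TH212.EH.dual P B (C + C') T U
  obtain ⟨n3, h3⟩ := Pool.Agent.K9h80.EP.large 1 1
  refine ⟨K, n1 + n2 + n3, fun N hN L A v hL hLB hLN hA κ f hκ hf hres w hw x hx => ?_⟩
  obtain ⟨_, _, hlog1⟩ := h3 N (by omega)
  by_cases hne : ∀ i, (A i).Nonempty
  swap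
  · obtain ⟨i, hi⟩ := not_forall.1 hne
    have hemp : Fintype.piFinset A = ∅ := Fintype.piFinset_eq_empty.2 ⟨i, not_nonempty_iff_eq_empty.1 hi⟩
    have h4 : ∀ d ∈ Icc 1 ⌊level K N⌋₊, τ d ^ T * |total A (res κ v f) w (x d) d| = 0 := by
      intro d _
      unfold total
      rw [hemp, filter_empty, sum_empty, abs_zero, mul_zero]
    rw [sum_congr rfl h4, sum_const_zero]
    exact div_nonneg (mul_nonneg (Nat.cast_nonneg _) (Nat.cast_nonneg _)) (pow_nonneg (zero_le_one.trans hlog1) _)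
  have hne' : ∀ i, Nonempty {a // a ∈ A i} := fun i => (hne i).to_subtype
  obtain ⟨v', hv'⟩ : ∃ v' : ∀ i : Fin (r + 1), {a // a ∈ A i} → ℤ, v' = fun i (a : {a // a ∈ A i}) => v i (a : ℤ) := ⟨_, rfl⟩
  obtain ⟨f', hf'⟩ : ∃ f' : Fin (r + 1) → (∀ i, {a // a ∈ A i}) → ℤ, f' = fun i y => f i (fun j => (y j : ℤ)) := ⟨_, rfl⟩
  obtain ⟨F, hF⟩ : ∃ F : (∀ i, {a // a ∈ A i}) → ℤ, F = Pool.Agent.K9h80.EP.ml κ v' f' := ⟨_, rfl⟩
  have hFr : ∀ y, F y = res κ v f (fun j => (y j : ℤ)) := by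
    intro y
    rw [hF, hf', hv']
    rfl
  have g1 := h1 N (by omega) (fun i => {a // a ∈ A i}) v' κ f' L hκ (by
    intro i y a
    rw [hf']
    simp only
    rw [← hf i (fun j => (y j : ℤ)) a]
    congr 1
    funext j
    by_cases hj : j = i
    · subst hj
      simp
    · rw [Function.update_of_ne hj, Function.update_of_ne hj]) hL hLB (by
    intro i
    rw [hv']
    exact hA i)
  rw [← hF] at g1
  have hcard : (Fintype.card (∀ i, {a // a ∈ A i}) : ℝ) = (∏ i, (A i).card : ℕ) := by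
    rw [Fintype.card_pi]
    simp only [Fintype.card_coe]
  have g2 : (Pool.Agent.TH212.EH.En P F : ℝ) * N ≤ Real.log N ^ (C + C') * (Fintype.card (∀ i, {a // a ∈ A i}) : ℝ) ^ (2 * P) := by
    have e1 := En_le P F
    calc (Pool.Agent.TH212.EH.En P F : ℝ) * N ≤ (Pool.Agent.K9h80.EP.E P F : ℝ) * (Real.log N ^ C * (∏ i, L i : ℕ)) :=
          mul_le_mul (by exact_mod_cast e1) hLN (Nat.cast_nonneg _) (Nat.cast_nonneg _)
      _ = Real.log N ^ C * ((Pool.Agent.K9h80.EP.E P F : ℝ) * (∏ i, L i : ℕ)) := by ring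
      _ ≤ Real.log N ^ C * (Real.log N ^ C' * (Fintype.card (∀ i, {a // a ∈ A i}) : ℝ) ^ (2 * P)) :=
          mul_le_mul_of_nonneg_left g1 (pow_nonneg (zero_le_one.trans hlog1) _)
      _ = _ := by ring
  have hlev0 : 0 ≤ level K N := div_nonneg (Nat.cast_nonneg _) (Real.exp_pos _).le
  have g3 := h2 N (by omega) (∀ i, {a // a ∈ A i}) F (fun y => by
    rw [hFr]
    exact hres _ (Fintype.mem_piFinset.2 fun i => (y i).2)) g2 (fun y => w (fun j => (y j : ℤ))) (fun y => hw _)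
    ⌊level K N⌋₊ (Nat.floor_le hlev0) x hx
  rw [hcard, mul_comm (N : ℝ)] at g3
  refine le_trans (le_of_eq ?_) g3
  apply sum_congr rfl
  intro q _
  unfold τ total
  congr 2
  have e : (Fintype.piFinset A).filter (fun n => 0 < res κ v f n ∧ Int.gcd (res κ v f n) q = 1) =
      ((univ : Finset (∀ i, {a // a ∈ A i})).filter (fun y => 0 < F y ∧ (F y).toNat.Coprime q)).image (fun y => fun j => (y j : ℤ)) := by
    ext n
    rw [mem_image, mem_filter, Fintype.mem_piFinset]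
    constructor
    · rintro ⟨a1, a2, a3⟩
      refine ⟨fun i => ⟨n i, a1 i⟩, mem_filter.2 ⟨mem_univ _, ?_⟩, rfl⟩
      rw [hFr]
      exact ⟨a2, (gcd_iff _ a2 q).1 a3⟩
    · rintro ⟨y, a3, rfl⟩
      have a4 := (mem_filter.1 a3).2
      rw [hFr] at a4
      exact ⟨fun i => (y i).2, a4.1, (gcd_iff _ a4.1 q).2 a4.2⟩
  rw [e, sum_image (by
    intro y _ y' _ h
    funext i
    exact Subtype.ext (congrFun h i))]
  apply sum_congr rfl
  intro y hy
  rw [mem_filter, hFr] at hy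
  rw [E_eq _ _ _ hy.2.1, hFr]

/-- Let `r ≥ 1`, `B`, `C`, `T`, `U` and `ε > 0` be fixed. Let `κ ≠ 0` be an integer, and let `f_1, …, f_r` be ARBITRARY
integer valued functions such that `f_i(n_1, …, n_r)` does not depend on `n_i`. Let
`a(n) = κ v_1(n_1) ⋯ v_r(n_r) + f_1(n) + ⋯ + f_r(n)`, and suppose that `|a(n)| ≤ B N` for `n ∈ M_1 × ⋯ × M_r`.

(1) For every `p ≥ 1` there is a `K` such that the estimate `Level` holds for all large `N`, if the values of `v_i` on
`M_i` are at most `L_i` in absolute value, `L_i ≥ N ^ ε`, `N / log ^ C N ≤ L_1 ⋯ L_r ≤ B N`, and if the additive energies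
of order `p` are nearly minimal: at most `log ^ C N * |M_i| ^ (2 p) / L_i`.

(2) For instance, for all polynomials `v_1, …, v_r` with integer coefficients and of positive degrees `k_i` there is a `K`
such that the estimate `Level` holds for all large `N` and for arbitrary sets `M_i ⊆ {1, …, X_i}` with
`|M_i| ≥ X_i / log ^ C N`, if `X_i ≥ N ^ ε` and `N / log ^ C N ≤ X_1 ^ k_1 ⋯ X_r ^ k_r ≤ B N`. -/
theorem result (r B C T U : ℕ) (hr : 1 ≤ r) (ε : ℝ) (hε : 0 < ε) :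
    (∀ p : ℕ, 1 ≤ p → ∃ K N₀ : ℕ, ∀ N : ℕ, N₀ ≤ N →
      ∀ (L : Fin r → ℕ) (M : Fin r → Finset ℤ) (v : Fin r → ℤ → ℤ), (∀ i, (N : ℝ) ^ ε ≤ L i) → ∏ i, L i ≤ B * N →
        (N : ℝ) ≤ Real.log N ^ C * (∏ i, L i : ℕ) → (∀ i, Thin N C p (L i) (M i) (v i)) →
      ∀ (κ : ℤ) (f : Fin r → (Fin r → ℤ) → ℤ), κ ≠ 0 → (∀ i n m, f i (Function.update n i m) = f i n) →
        (∀ n ∈ Fintype.piFinset M, |res κ v f n| ≤ B * N) → Level N K B T U M (res κ v f)) ∧
    (∀ P : Fin r → Polynomial ℤ, (∀ i, 1 ≤ (P i).natDegree) → ∃ K N₀ : ℕ, ∀ N : ℕ, N₀ ≤ N →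
      ∀ (X : Fin r → ℕ) (M : Fin r → Finset ℤ), (∀ i, (N : ℝ) ^ ε ≤ X i) → ∏ i, X i ^ (P i).natDegree ≤ B * N →
        (N : ℝ) ≤ Real.log N ^ C * (∏ i, X i ^ (P i).natDegree : ℕ) →
        (∀ i, M i ⊆ Icc 1 (X i : ℤ) ∧ (X i : ℝ) ≤ Real.log N ^ C * (M i).card) →
      ∀ (κ : ℤ) (f : Fin r → (Fin r → ℤ) → ℤ), κ ≠ 0 → (∀ i n m, f i (Function.update n i m) = f i n) →
        (∀ n ∈ Fintype.piFinset M, |res κ (fun i m => (P i).eval m) f n| ≤ B * N) →
        Level N K B T U M (res κ (fun i m => (P i).eval m) f)) := by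
  obtain ⟨r, rfl⟩ : ∃ r', r = r' + 1 := ⟨r - 1, by omega⟩
  constructor
  · intro p hp
    obtain ⟨K, n0, h⟩ := core r p B C T U hp ε hε
    refine ⟨K, n0, fun N hN L M v hL hLB hLN hM => h N hN L M v hL hLB hLN fun i => ⟨fun a => (hM i).1 a a.2, ?_⟩⟩
    have := energy_coe p (M i) (v i)
    rw [Fintype.card_coe]
    refine le_trans ?_ (hM i).2
    exact mul_le_mul_of_nonneg_right (by exact_mod_cast this) (Nat.cast_nonneg _)
  · intro P hP
    choose p0 C0 n0 h0 using fun i => Pool.Agent.K9h80.EP.good_poly (P i) (hP i) C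
    obtain ⟨p, hp1, hp⟩ : ∃ p, 1 ≤ p ∧ ∀ i, p0 i ≤ p := ⟨1 + ∑ i, p0 i, by omega, fun i => by
      have := single_le_sum (f := p0) (fun _ _ => Nat.zero_le _) (mem_univ i)
      omega⟩
    obtain ⟨C1, hC1C, hC1⟩ : ∃ C1, C ≤ C1 ∧ ∀ i, C0 i ≤ C1 := ⟨C + ∑ i, C0 i, by omega, fun i => by
      have := single_le_sum (f := C0) (fun _ _ => Nat.zero_le _) (mem_univ i)
      omega⟩
    obtain ⟨n1, hn1⟩ : ∃ n1, ∀ i, n0 i ≤ n1 := ⟨∑ i, n0 i, fun i =>
      single_le_sum (f := n0) (fun _ _ => Nat.zero_le _) (mem_univ i)⟩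
    obtain ⟨B', hB'⟩ : ∃ B' : ℕ, B' = (∏ i, (Pool.Agent.H373R2.T7.cf (P i) + 1)) * B := ⟨_, rfl⟩
    have hc1 : 1 ≤ ∏ i, (Pool.Agent.H373R2.T7.cf (P i) + 1) := Nat.one_le_iff_ne_zero.2 (prod_ne_zero_iff.2 fun i _ => by omega)
    have hBB' : B ≤ B' := by rw [hB']; exact Nat.le_mul_of_pos_left _ hc1
    obtain ⟨K, n2, h⟩ := core r p B' C1 T U hp1 ε hε
    obtain ⟨n3, h3⟩ := Pool.Agent.K9h80.EP.large 1 1
    refine ⟨K, n1 + n2 + n3, fun N hN X M hX hXB hXN hM κ f hκ hf hres => ?_⟩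
    obtain ⟨hN1', _, hlog1⟩ := h3 N (by omega)
    have hN1 : (1 : ℝ) ≤ N := by exact_mod_cast hN1'
    have hNε : 1 ≤ (N : ℝ) ^ ε := Real.one_le_rpow hN1 hε.le
    have hX1 : ∀ i, 1 ≤ X i := fun i => by exact_mod_cast hNε.trans (hX i)
    have hprod : ∏ i, ((Pool.Agent.H373R2.T7.cf (P i) + 1) * X i ^ (P i).natDegree) =
        (∏ i, (Pool.Agent.H373R2.T7.cf (P i) + 1)) * ∏ i, X i ^ (P i).natDegree := prod_mul_distrib
    have key := h N (by omega) (fun i => (Pool.Agent.H373R2.T7.cf (P i) + 1) * X i ^ (P i).natDegree) M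
      (fun i m => (P i).eval m) (by
        intro i
        refine (hX i).trans ?_
        have h5 : X i ≤ X i ^ (P i).natDegree := Nat.le_self_pow (by have := hP i; omega) _
        have h6 : X i ≤ (Pool.Agent.H373R2.T7.cf (P i) + 1) * X i ^ (P i).natDegree :=
          h5.trans (Nat.le_mul_of_pos_left _ (by omega))
        exact_mod_cast h6) (by
        rw [hprod, hB', mul_assoc]
        exact Nat.mul_le_mul_left _ hXB) (by
        refine hXN.trans ?_
        apply mul_le_mul (pow_le_pow_right₀ hlog1 hC1C) _ (Nat.cast_nonneg _) (pow_nonneg (zero_le_one.trans hlog1) _)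
        rw [hprod]
        exact_mod_cast Nat.le_mul_of_pos_left _ hc1) (by
        intro i
        exact Pool.Agent.K9h80.EP.raise N (C0 i) C1 (p0 i) p hlog1 (hC1 i) (hp i) _ _
          (h0 i N ((hn1 i).trans (by omega)) (X i) (M i) (hX1 i) (hM i).1 (hM i).2)) κ f hκ hf (by
        intro n hn
        refine (hres n hn).trans ?_
        exact mul_le_mul_of_nonneg_right (by exact_mod_cast hBB') (Nat.cast_nonneg _))
    intro w hw x hx
    exact key w hw x fun d => (hx d).trans (Nat.mul_le_mul_right _ hBB')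

end Pool.Agent.Results.MP_188a10_nt.MultilinearResidues
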