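import Pool.Agent.K9h83.BR.Fam

/-!
# The weighted sum for the residues near random real numbers, and near `α^d` for almost all `α`

In the sum of the problem `E(N, d)` is the maximum over all the residues `l` prime to `d`. Let `x_d`,
`d ≥ 1`, be random real numbers (no independence is assumed) such that the integer part of `x_d` is in each
residue class modulo `d` with probability at most `C / d`. Almost surely, for all `κ ≥ 0` and `U`, the sum
over ALL moduli `d ≤ V = N / (log N)^B`, `B = B(κ, U)`, of `κ^ν(d)` times the maximum over `2 ≤ y ≤ N` and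
over the integers `l` prime to `d` with `|l - x_d| ≤ V / d` is `O(N / (log N)^U)`. For `d ≤ V^(1/2)` these
are all the residues, so that this contains the theorem of Bombieri and Vinogradov; for larger `d` they
are the proportion `V / d²` of all residues.

The hypothesis is satisfied by `x_d = f_d(α)` for a random number `α` of a compact interval, if each `f_d`
is a convex or a concave function with slopes at least `c d`. So the bound holds for almost all `α` in an
open interval on which this is true: near `α^d` for almost all `α > 1` (`powers`), near `α F(d) + G(d)` for almost all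
`α`, if `F(d) ≥ c d` (`multiples`); for `x_d = α d` the condition for `l` is `|α - l / d| ≤ V / d²`.

Proof: by the starting result `WeightedExceptional` the classes `l` modulo `d` with a large error are
at most `d² (log N)^B / N`; the expected value of the sum of the trivial bounds over the `d` for which such
a class has a member within `V / d` of `x_d` is small; Borel-Cantelli along `N = 2^j`.
-/

set_option autoImplicit false

namespace Pool.Agent.Results.MP_188a10_nt.MultiplesOfARealNumber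

open Finset MeasureTheory

/-- `π(y; d, l)`: the number of primes `p ≤ y` with `p ≡ l (mod d)` -/
noncomputable def primesAP (y : ℝ) (d : ℕ) (l : ℤ) : ℕ :=
  ((Icc 1 ⌊y⌋₊).filter (fun p : ℕ => p.Prime ∧ (p : ZMod d) = (l : ZMod d))).card

/-- `li(y) = ∫_2^y dt / log t` -/
noncomputable def li (y : ℝ) : ℝ := ∫ t in (2 : ℝ)..y, 1 / Real.log t

/-- the maximum over real `y`, `2 ≤ y ≤ N`, of `|π(y; d, l) - li(y)/φ(d)|` -/
noncomputable def EMax (N d : ℕ) (l : ℤ) : ℝ :=
  ⨆ y : Set.Icc (2 : ℝ) N, |(primesAP y d l : ℝ) - li y / (Nat.totient d : ℝ)|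

/-- the maximum of `EMax N d l` over the integers `l` prime to `d` with `|l - x| ≤ w` (`0` if there is
none) -/
noncomputable def ENear (N d : ℕ) (x w : ℝ) : ℝ :=
  ⨆ l : {l : ℤ // IsCoprime l (d : ℤ) ∧ |(l : ℝ) - x| ≤ w}, EMax N d l

/-- The sum over all the moduli `1 ≤ d ≤ Q` of `κ^ν(d)` times the maximum of `EMax N d l` over the
integers `l` prime to `d` with `|l - x(d)| ≤ V / d`; `ν(d)` is the number of distinct prime factors
of `d`. -/
noncomputable def total (κ : ℝ) (N Q : ℕ) (V : ℝ) (x : ℕ → ℝ) : ℝ :=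
  ∑ d ∈ Icc 1 Q, κ ^ d.primeFactors.card * ENear N d (x d) (V / d)

/-- The integer part of `x d` is in each residue class modulo `d` with measure at most `C / d`. -/
def Spread {Ω : Type} [MeasurableSpace Ω] (μ : Measure Ω) (x : ℕ → Ω → ℝ) (C : ℝ) : Prop :=
  ∀ d : ℕ, 1 ≤ d → ∀ u : ℤ, μ {ω | (d : ℤ) ∣ ⌊x d ω⌋ - u} ≤ ENNReal.ofReal (C / d)

theorem result :
    ∃ B : ℝ → ℕ → ℕ,
      (∀ (Ω : Type) [MeasurableSpace Ω] (μ : Measure Ω) (x : ℕ → Ω → ℝ) (C₀ : ℝ),
        (∀ d, Measurable (x d)) → Spread μ x C₀ →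
        ∀ᵐ ω ∂μ, ∀ κ : ℝ, 0 ≤ κ → ∀ U : ℕ, ∃ C : ℝ, ∀ N : ℕ, 3 ≤ N → ∀ Q : ℕ,
          (Q : ℝ) ≤ N / Real.log N ^ B κ U →
          total κ N Q (N / Real.log N ^ B κ U) (fun d => x d ω) ≤ C * (N / Real.log N ^ U)) ∧
      ∀ (J : Set ℝ), IsOpen J → ∀ c : ℝ, 0 < c → ∀ f : ℕ → ℝ → ℝ,
        (∀ d, 1 ≤ d → ConvexOn ℝ J (f d) ∨ ConcaveOn ℝ J (f d)) →
        (∀ d : ℕ, 1 ≤ d → ∀ x ∈ J, ∀ y ∈ J, x ≤ y → c * d * (y - x) ≤ f d y - f d x) →
        ∀ᵐ α : ℝ, α ∈ J → ∀ κ : ℝ, 0 ≤ κ → ∀ U : ℕ, ∃ C : ℝ, ∀ N : ℕ, 3 ≤ N → ∀ Q : ℕ,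
          (Q : ℝ) ≤ N / Real.log N ^ B κ U →
          total κ N Q (N / Real.log N ^ B κ U) (fun d => f d α) ≤ C * (N / Real.log N ^ U) :=
  Pool.Agent.K9h83.BR.mainR

/-- Example: the residues near `α ^ d` for almost all `α > 1`. -/
theorem powers : ∃ B : ℝ → ℕ → ℕ, ∀ᵐ α : ℝ, 1 < α → ∀ κ : ℝ, 0 ≤ κ → ∀ U : ℕ, ∃ C : ℝ,
    ∀ N : ℕ, 3 ≤ N → ∀ Q : ℕ, (Q : ℝ) ≤ N / Real.log N ^ B κ U →
      total κ N Q (N / Real.log N ^ B κ U) (fun d => α ^ d) ≤ C * (N / Real.log N ^ U) := by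
  obtain ⟨B, -, hB⟩ := result
  refine ⟨B, hB (Set.Ioi 1) isOpen_Ioi 1 one_pos (fun d t => t ^ d)
    (fun d _ => Or.inl ((convexOn_pow d).subset (fun t ht => ?_) (convex_Ioi 1))) ?_⟩
  · have h : (1 : ℝ) < t := ht
    show (0 : ℝ) ≤ t
    linarith
  · intro d hd x hx y hy hxy
    have hx1 : (1 : ℝ) < x := hx
    have hy1 : (1 : ℝ) < y := hy
    have h1 : (∑ i ∈ range d, y ^ i * x ^ (d - 1 - i)) * (y - x) = y ^ d - x ^ d :=
      (Commute.all y x).geom_sum₂_mul d
    have h2 : (d : ℝ) ≤ ∑ i ∈ range d, y ^ i * x ^ (d - 1 - i) := by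
      calc (d : ℝ) = ∑ _i ∈ range d, (1 : ℝ) := by simp
        _ ≤ _ := sum_le_sum fun i _ => by
          have g1 : 1 ≤ y ^ i := one_le_pow₀ hy1.le
          have g2 : 1 ≤ x ^ (d - 1 - i) := one_le_pow₀ hx1.le
          nlinarith
    show 1 * (d : ℝ) * (y - x) ≤ y ^ d - x ^ d
    rw [← h1, one_mul]
    exact mul_le_mul_of_nonneg_right h2 (by linarith)

/-- Example: the residues near `α F(d) + G(d)` for almost all `α`, if `F(d) ≥ c d`, `c > 0`. -/
theorem multiples : ∃ B : ℝ → ℕ → ℕ, ∀ c : ℝ, 0 < c → ∀ F G : ℕ → ℝ,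
    (∀ d : ℕ, 1 ≤ d → c * d ≤ F d) →
    ∀ᵐ α : ℝ, ∀ κ : ℝ, 0 ≤ κ → ∀ U : ℕ, ∃ C : ℝ,
    ∀ N : ℕ, 3 ≤ N → ∀ Q : ℕ, (Q : ℝ) ≤ N / Real.log N ^ B κ U →
      total κ N Q (N / Real.log N ^ B κ U) (fun d => α * F d + G d) ≤
        C * (N / Real.log N ^ U) := by
  obtain ⟨B, -, hB⟩ := result
  refine ⟨B, fun c hc F G hF => ?_⟩
  have h := hB Set.univ isOpen_univ c hc (fun d t => t * F d + G d)
    (fun d _ => Or.inl ⟨convex_univ, fun x _ y _ a b _ _ hab => le_of_eq ?_⟩) ?_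
  · filter_upwards [h] with α hα
    exact hα (Set.mem_univ α)
  · simp only [smul_eq_mul]
    linear_combination (-G d) * hab
  · intro d hd x _ y _ hxy
    have h1 := mul_le_mul_of_nonneg_right (hF d hd) (sub_nonneg.2 hxy)
    show c * d * (y - x) ≤ y * F d + G d - (x * F d + G d)
    linarith

end Pool.Agent.Results.MP_188a10_nt.MultiplesOfARealNumber
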