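import Pool.Agent.K9h59.MI.A

/-!
# The weighted sum of the problem with the maxima over the heights and over the residues inside

The sum over the moduli of `κ^ν(d)` times the maximum over ALL heights `2 ≤ y ≤ N` and over ALL the
residues `a ∈ A` prime to `d`, outside few pairs `(d, a)`: for all moduli `d ≤ N^α`, every `α < 14/27`,
together with the factorable (in particular the smooth) squarefree moduli `d ≤ N^θ`, every `θ < 5/9`.
Here `A` is any set of at most `N^η` integers.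

Proof: the unweighted theorem at a single height, with the maximum over the residues inside
(`Pool.Agent.W109.C`, starting files), is proved for the larger class of the moduli above and applied at
the heights of a grid, with slightly larger exponents; the exceptional pairs of all the heights are put
together, and `Pool.Agent.N900.WS.grid` (starting files) is applied to the residues at which the maxima
are attained.
-/

set_option autoImplicit false

namespace Pool.Agent.Results.MP_188a10_nt.WeightedMaxInsideFiveNinths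

open Finset

/-- `π(y; d, a)`: the number of primes `p ≤ y` with `p ≡ a (mod d)` -/
noncomputable def primesAP (y : ℝ) (d a : ℕ) : ℕ :=
  ((Icc 1 ⌊y⌋₊).filter (fun p => p.Prime ∧ p ≡ a [MOD d])).card

/-- `li(y) = ∫_2^y dt / log t` -/
noncomputable def li (y : ℝ) : ℝ := ∫ t in (2 : ℝ)..y, 1 / Real.log t

/-- the maximum over real `y`, `2 ≤ y ≤ N`, of `|π(y; d, a) - li(y)/φ(d)|` -/
noncomputable def EMax (N d a : ℕ) : ℝ :=
  ⨆ y : Set.Icc (2 : ℝ) N, |(primesAP y d a : ℝ) - li y / (Nat.totient d : ℝ)|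

/-- the maximum of `EMax N d a` over the `a ∈ S` prime to `d` (and `0` if there are none) -/
noncomputable def EOn (N d : ℕ) (S : Finset ℕ) : ℝ :=
  ⨆ a : {a : ℕ // a ∈ S ∧ Nat.Coprime a d}, EMax N d a

/-- `ν(d)`: the number of distinct prime factors of `d` -/
def nuD (d : ℕ) : ℕ := d.primeFactors.card

open Classical in
/-- the `d ≤ N^θ` that are at most `N^α`, or are squarefree and have a divisor `s` with
`N^(2θ-1+δ) ≤ s ≤ N^(4-7θ-δ)` -/
noncomputable def mods (N : ℕ) (α θ δ : ℝ) : Finset ℕ :=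
  (Icc 1 ⌊(N : ℝ) ^ θ⌋₊).filter (fun d : ℕ => (d : ℝ) ≤ (N : ℝ) ^ α ∨ (Squarefree d ∧
    ∃ s : ℕ, s ∣ d ∧ (N : ℝ) ^ (2 * θ - 1 + δ) ≤ s ∧ (s : ℝ) ≤ (N : ℝ) ^ (4 - 7 * θ - δ)))

theorem EOn_le (N d : ℕ) (S : Finset ℕ) (l : ℕ)
    (h : (∃ a, a ∈ S ∧ Nat.Coprime a d) → l ∈ S ∧ Nat.Coprime l d ∧
      ∀ a ∈ S, Nat.Coprime a d → EMax N d a ≤ EMax N d l) :
    EOn N d S ≤ if l ∈ S ∧ Nat.Coprime l d then EMax N d l else 0 := by
  unfold EOn
  by_cases h0 : ∃ a, a ∈ S ∧ Nat.Coprime a d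
  · obtain ⟨h1, h2, h3⟩ := h h0
    rw [if_pos ⟨h1, h2⟩]
    have hne : Nonempty {a : ℕ // a ∈ S ∧ Nat.Coprime a d} := ⟨⟨l, h1, h2⟩⟩
    exact ciSup_le fun a => h3 a.1 a.2.1 a.2.2
  · have hem : IsEmpty {a : ℕ // a ∈ S ∧ Nat.Coprime a d} :=
      ⟨fun a => h0 ⟨a.1, a.2⟩⟩
    rw [Real.iSup_of_isEmpty]
    split_ifs with h1
    · exact absurd ⟨l, h1⟩ h0
    · exact le_rfl

/-- **Level `14/27` for all moduli and `5/9` for factorable ones, with weights and with the maxima over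
the heights and the residues inside.** For the smooth squarefree moduli see the first part. -/
theorem result (α θ δ : ℝ) (hα : 1 / 2 ≤ α) (hα' : α < 14 / 27) (hαθ : α ≤ θ) (hθ : θ < 5 / 9)
    (hδ : 0 < δ) :
    (∀ N d : ℕ, 2 ≤ N → 1 ≤ d → (d : ℝ) ≤ (N : ℝ) ^ θ → Squarefree d →
      (∀ p : ℕ, p.Prime → p ∣ d → (p : ℝ) ≤ (N : ℝ) ^ (5 - 9 * θ - 2 * δ)) → d ∈ mods N α θ δ) ∧
    ∃ η : ℝ, 0 < η ∧ ∀ κ : ℝ, 1 ≤ κ → ∀ U : ℕ, ∃ (B : ℕ) (C : ℝ), 0 < C ∧ ∀ N : ℕ, 3 ≤ N →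
      ∀ A : Finset ℕ, (∀ a ∈ A, 1 ≤ a ∧ (a : ℝ) * Real.log N ^ B ≤ N) →
      (A.card : ℝ) ≤ (N : ℝ) ^ η → ∃ X : ℕ → Finset ℕ,
      ∑ d ∈ Icc 1 ⌊(N : ℝ) ^ θ⌋₊, ((X d).card : ℝ) / (Nat.totient d : ℝ) ≤ C * Real.log N ^ B ∧
      ∑ d ∈ mods N α θ δ, κ ^ nuD d * EOn N d (A \ X d) ≤ N / Real.log N ^ U := by
  classical
  have hmods : ∀ (N d : ℕ), d ∈ mods N α θ δ ↔
      d ∈ Pool.Agent.W109.C.mo (Pool.Agent.K9h59.MI.PG α θ δ) N θ := by
    intro N d
    rw [Pool.Agent.W109.C.mem_mo]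
    unfold mods
    rw [mem_filter]
    rfl
  constructor
  · intro N d hN hd hdN hsq hsm
    rw [hmods, Pool.Agent.W109.C.mem_mo]
    refine ⟨mem_Icc.2 ⟨hd, Nat.le_floor hdN⟩, ?_⟩
    rcases lt_or_ge (5 - 9 * θ - 2 * δ) 0 with hneg | hpos
    · left
      have hN1 : (1 : ℝ) ≤ N := by exact_mod_cast (by omega : 1 ≤ N)
      have hd1 : d = 1 := by
        by_contra hne
        obtain ⟨p, hp, hpd⟩ := Nat.exists_prime_and_dvd hne
        have h4 := hsm p hp hpd
        have h5 : (N : ℝ) ^ (5 - 9 * θ - 2 * δ) ≤ 1 :=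
          Real.rpow_le_one_of_one_le_of_nonpos hN1 hneg.le
        have h6 : (2 : ℝ) ≤ p := by exact_mod_cast hp.two_le
        linarith
      rw [hd1]
      push_cast
      exact Real.one_le_rpow hN1 (by linarith)
    · exact Pool.Agent.K9h59.MI.smooth_PG α θ δ (by linarith) (by linarith) hδ N d hN hsq hsm
  · obtain ⟨η, hη, h⟩ := Pool.Agent.K9h59.MI.main α θ δ hα' (by linarith) hθ hδ
    refine ⟨η, hη, fun κ hκ U => ?_⟩
    obtain ⟨B, C, hC, hU⟩ := h κ hκ U
    refine ⟨B, C, hC, fun N hN A hA hAc => ?_⟩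
    obtain ⟨X, -, hX1, hX2⟩ := hU N hN A hA hAc
    refine ⟨X, hX1, ?_⟩
    -- the residues at which the maxima are attained
    have hex : ∀ d : ℕ, ∃ l : ℕ, (∃ a, a ∈ A \ X d ∧ Nat.Coprime a d) →
        l ∈ A \ X d ∧ Nat.Coprime l d ∧
        ∀ a ∈ A \ X d, Nat.Coprime a d → EMax N d a ≤ EMax N d l := by
      intro d
      by_cases h0 : ∃ a, a ∈ A \ X d ∧ Nat.Coprime a d
      · obtain ⟨a, ha, hac⟩ := h0
        obtain ⟨l, hl, hmax⟩ := exists_max_image ((A \ X d).filter (fun a => Nat.Coprime a d))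
          (fun a => EMax N d a) ⟨a, mem_filter.2 ⟨ha, hac⟩⟩
        rw [mem_filter] at hl
        exact ⟨l, fun _ => ⟨hl.1, hl.2, fun a ha hac => hmax a (mem_filter.2 ⟨ha, hac⟩)⟩⟩
      · exact ⟨0, fun h => absurd h h0⟩
    choose l hl using hex
    have hκ0 : 0 ≤ κ := by linarith
    calc ∑ d ∈ mods N α θ δ, κ ^ nuD d * EOn N d (A \ X d)
        ≤ ∑ d ∈ mods N α θ δ, κ ^ nuD d *
          (if l d ∈ A \ X d ∧ Nat.Coprime (l d) d then EMax N d (l d) else 0) := by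
          refine sum_le_sum fun d _ => ?_
          exact mul_le_mul_of_nonneg_left (EOn_le N d _ (l d) (hl d)) (pow_nonneg hκ0 _)
      _ = ∑ d ∈ (mods N α θ δ).filter (fun d => l d ∈ A ∧ l d ∉ X d ∧ Nat.Coprime (l d) d),
          κ ^ nuD d * EMax N d (l d) := by
          rw [sum_filter]
          refine sum_congr rfl fun d _ => ?_
          by_cases h5 : l d ∈ A \ X d ∧ Nat.Coprime (l d) d
          · have h6 : l d ∈ A ∧ l d ∉ X d ∧ Nat.Coprime (l d) d :=
              ⟨(mem_sdiff.1 h5.1).1, (mem_sdiff.1 h5.1).2, h5.2⟩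
            rw [if_pos h5, if_pos h6]
          · have h6 : ¬ (l d ∈ A ∧ l d ∉ X d ∧ Nat.Coprime (l d) d) :=
              fun h6 => h5 ⟨mem_sdiff.2 ⟨h6.1, h6.2.1⟩, h6.2.2⟩
            rw [if_neg h5, if_neg h6, mul_zero]
      _ ≤ N / Real.log N ^ U := by
          have h4 : (mods N α θ δ).filter
              (fun d => l d ∈ A ∧ l d ∉ X d ∧ Nat.Coprime (l d) d) =
              (Pool.Agent.W109.C.mo (Pool.Agent.K9h59.MI.PG α θ δ) N θ).filter
              (fun d => l d ∈ A ∧ l d ∉ X d ∧ Nat.Coprime (l d) d) := by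
            ext d
            rw [mem_filter, mem_filter, hmods]
          rw [h4]
          exact hX2 l

end Pool.Agent.Results.MP_188a10_nt.WeightedMaxInsideFiveNinths
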