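import Pool.Agent.K9h59.WK.A
import Pool.Agent.N625.GW.D

/-!
# Weighted level of distribution `1 - ε` for the integers whose digits label walks in a graph

Divisor-bounded weights, heights which depend on the moduli, absolute values over the moduli; the residues are the
integers whose digits are the labels of a walk between two vertices of a symmetric graph, finite or infinite (for
instance the Cayley graph of a finitely generated group).

Method: the exponential sums over the walks are from the starting files (`Pool.Agent.N625.GW`, `Pool.Agent.N625.DY`), as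
well as the passage from bounded to divisor-bounded weights (`Pool.Agent.TH872.GQ.Dual`); the absolute values over the
moduli for classes of random integers are from `Pool.Agent.K9h59.WK`.
-/

set_option autoImplicit false

namespace Pool.Agent.Results.MP_188a10_nt.WeightedWalkResidues

open Finset

/-- The digits `a < b` act on the set `X` of the vertices: an edge with the label `a` leads from `x` to `y` if
`δ x a = some y` (at most one edge with the label `a` starts at `x`). The number of the edges from `x` to `y` equals the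
number of the edges from `y` to `x`, and at least two edges start at every vertex. The graph may be infinite. -/
structure Graph {X : Type} (b : ℕ) (δ : X → ℕ → Option X) : Prop where
  symm : ∀ x y : X, {a : ℕ | a < b ∧ δ x a = some y}.ncard = {a : ℕ | a < b ∧ δ y a = some x}.ncard
  two : ∀ x : X, ∃ a a' : ℕ, a < a' ∧ a' < b ∧ (δ x a).isSome ∧ (δ x a').isSome

open Classical in
/-- The integers `v < b ^ k` whose `k` digits in base `b`, from the most significant to the least significant one (the
digit number `i`, `0 ≤ i < k`, from the left is `v / b ^ (k - 1 - i) % b`), are the labels of a walk from `x` to `y`. -/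
noncomputable def walks {X : Type} (b : ℕ) (δ : X → ℕ → Option X) (k : ℕ) (x y : X) : Finset ℕ :=
  (range (b ^ k)).filter fun v =>
    ((List.range k).map fun i => v / b ^ (k - 1 - i) % b).foldl (fun s a => s.bind fun z => δ z a) (some x) = some y

/-- `E(x; d, a) = ψ(x; d, a) - x / φ(d)`, where `ψ(x; d, a)` is the sum of `Λ(n)` over the `n ≤ x` with
`n ≡ a (mod d)`. -/
noncomputable def E (x d a : ℕ) : ℝ :=
  ∑ n ∈ (Icc 1 x).filter (fun n => n ≡ a [MOD d]), ArithmeticFunction.vonMangoldt n - (x : ℝ) / Nat.totient d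

/-- The sum of `w(v) E(x; d, a)` over the `v ∈ S` for which `a = c + κ v` is positive and coprime to `d`. -/
noncomputable def total (S : Finset ℕ) (κ c : ℤ) (w : ℕ → ℝ) (x d : ℕ) : ℝ :=
  ∑ v ∈ S.filter (fun v : ℕ => 0 < c + κ * (v : ℕ) ∧ (c + κ * (v : ℕ)).toNat.Coprime d), w v * E x d (c + κ * (v : ℕ)).toNat

/-- Let `δ` be a graph whose edges are labelled with the digits in base `b`, let `x₀` be a vertex, and let `ρ > 0` be such
that there are at most `ρ ^ (2 n)` closed walks of the length `2 n` at `x₀`, for all `n`. Let `D`, `κ ≠ 0`, `B`, `T`, `U`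
and `ε > 0` be fixed, let `k` be large, `N = b ^ k` and `Q = N ^ (1 - ε)`, let `y₀` be a vertex such that the number of the
walks of the length `k` from `x₀` to `y₀` is at least `ρ ^ k / k ^ D`, and let `c` be an arbitrary integer with `|c| ≤ B N`.

For arbitrary coefficients `|w(v)| ≤ k ^ T` and arbitrary `x(d) ≤ B N`, the sum over ALL `d ≤ Q` of `τ(d) ^ T` times the
ABSOLUTE VALUE of the sum of `w(v) E(x(d); d, a)`, over the integers `v` whose digits are the labels of a walk from `x₀` to
`y₀` and for which `a = c + κ v` is positive and coprime to `d`, is at most `N / k ^ U` times the number of the walks. -/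
theorem result (b : ℕ) (X : Type) (δ : X → ℕ → Option X) (hG : Graph b δ) (x₀ : X) (ρ : ℝ) (hρ : 0 < ρ)
    (hR : ∀ n : ℕ, ((walks b δ (2 * n) x₀ x₀).card : ℝ) ≤ ρ ^ (2 * n)) (D : ℕ) (κ : ℤ) (hκ : κ ≠ 0) (B T U : ℕ)
    (ε : ℝ) (hε : 0 < ε) :
    ∃ k₀ : ℕ, ∀ k : ℕ, k₀ ≤ k → ∀ y₀ : X, ρ ^ k / (k : ℝ) ^ D ≤ (walks b δ k x₀ y₀).card →
      ∀ c : ℤ, |c| ≤ B * (b : ℤ) ^ k →
      ∀ w : ℕ → ℝ, (∀ v, |w v| ≤ (k : ℝ) ^ T) → ∀ x : ℕ → ℕ, (∀ d, x d ≤ B * b ^ k) →
        ∑ d ∈ Icc 1 ⌊((b ^ k : ℕ) : ℝ) ^ (1 - ε)⌋₊, (d.divisors.card : ℝ) ^ T *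
          |total (walks b δ k x₀ y₀) κ c w (x d) d| ≤ (walks b δ k x₀ y₀).card * (((b ^ k : ℕ) : ℝ) / (k : ℝ) ^ U) := by
  have hcls := Pool.Agent.N625.GW.w_cls (δ := δ) ⟨hG.symm, hG.two⟩ x₀ ρ hρ hR D κ hκ
  obtain ⟨k2, h2⟩ := Pool.Agent.K9h59.WK.cls_absolute hcls B T U ε hε
  refine ⟨k2 + 1, fun k hk y₀ hy c hc => ?_⟩
  have hk1 : (0 : ℝ) < (k : ℝ) ^ D := by
    have : (0 : ℝ) < k := by exact_mod_cast (by omega : 0 < k)
    positivity
  have hy' : ρ ^ k ≤ (k : ℝ) ^ D * (walks b δ k x₀ y₀).card := by
    rw [div_le_iff₀ hk1, mul_comm] at hy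
    exact hy
  intro w hw x hx
  refine Pool.Agent.K9h59.WK.unif_absolute (κ := κ) k T U B ε (walks b δ k x₀ y₀)
    (Pool.Agent.N625.GW.w_sub k x₀ y₀) c w x (fun _ => ?_)
  exact h2 k (by omega) _ ⟨y₀, hy', rfl⟩ c hc w hw x hx

end Pool.Agent.Results.MP_188a10_nt.WeightedWalkResidues
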